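import Pool.Agent.Helper70.SUB.SheetW

set_option autoImplicit false

namespace Pool.Agent.Helper93.SUBW

open Filter Finset Pool.Agent.Helper70.SUB Pool.Agent.Helper77.SUBK Pool.Agent.Helper70.SUBL
  Pool.Agent.Helper70.SUBW

/-- an integer of polynomial size which is a sum of S-units with slow coefficients is a
sum of moderate S-units with slow coefficients -/
theorem HBW (hMODW : ST_MODW) (hSLW : ST_SLW) : ST_HBW := by
  intro M _ _ _ S P φ X x B hS hX hx hxB
  classical
  obtain ⟨hconst, hadd, -⟩ := hSLW M S P φ X hS hX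
  have hex : ∃ t : ℕ, ∃ c u : Fin t → ℕ → M, (∀ i, Slw P φ X (c i)) ∧
      (∀ i, ∀ᶠ j in (φ : Filter ℕ), SV S (u i j)) ∧
      ∀ᶠ j in (φ : Filter ℕ), ∑ i, c i j * u i j = (x j : M) := hx
  obtain ⟨c, u, hc, hu, hs⟩ := Nat.find_spec hex
  have hmin : ∀ t' < Nat.find hex, ¬ ∃ c u : Fin t' → ℕ → M, (∀ i, Slw P φ X (c i)) ∧
      (∀ i, ∀ᶠ j in (φ : Filter ℕ), SV S (u i j)) ∧
      ∀ᶠ j in (φ : Filter ℕ), ∑ i, c i j * u i j = (x j : M) := fun t' h => Nat.find_min hex h
  generalize Nat.find hex = t at c u hc hu hs hmin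
  have hind : ∀ a : Fin t → M, a ≠ 0 → ¬ ∀ᶠ j in (φ : Filter ℕ),
      ∑ i, a i * (c i j * u i j) = 0 := by
    intro a ha h0
    obtain ⟨k, hk⟩ : ∃ k, a k ≠ 0 := by
      by_contra hcon
      push Not at hcon
      exact ha (funext hcon)
    obtain ⟨s, rfl⟩ : ∃ s, t = s + 1 := ⟨t - 1, by have := k.pos; omega⟩
    refine hmin s (Nat.lt_succ_self s) ⟨fun i j => (1 - a (k.succAbove i) / a k) *
      c (k.succAbove i) j, fun i => u (k.succAbove i), fun i => ?_, fun i => hu _, ?_⟩
    · exact (hadd _ _ (hconst (1 - a (k.succAbove i) / a k)) (hc (k.succAbove i))).2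
    · filter_upwards [hs, h0] with j h1 h2
      rw [Fin.sum_univ_succAbove _ k] at h1 h2
      have h3 : c k j * u k j = -∑ i : Fin s, (a (k.succAbove i) / a k) *
          (c (k.succAbove i) j * u (k.succAbove i) j) := by
        have h4 : a k * (c k j * u k j + ∑ i : Fin s, (a (k.succAbove i) / a k) *
            (c (k.succAbove i) j * u (k.succAbove i) j)) = 0 := by
          rw [mul_add, Finset.mul_sum, ← h2]
          congr 1
          refine Finset.sum_congr rfl fun i _ => ?_
          field_simp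
        rcases mul_eq_zero.1 h4 with h5 | h5
        · exact absurd h5 hk
        · exact eq_neg_of_add_eq_zero_left h5
      rw [← h1, h3, ← Finset.sum_neg_distrib, ← Finset.sum_add_distrib]
      refine Finset.sum_congr rfl fun i _ => ?_
      ring
  have hne : ∀ i, ∀ᶠ j in (φ : Filter ℕ), c i j ≠ 0 := by
    intro i
    by_contra hcon
    rw [← Ultrafilter.eventually_not] at hcon
    refine hind (Pi.single i 1) ?_ ?_
    · intro h
      have := congrFun h i
      simp at this
    · filter_upwards [hcon] with j hj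
      rw [Finset.sum_eq_single i]
      · rw [not_not.1 hj]; simp
      · intro b _ hb
        rw [Pi.single_eq_of_ne hb]; simp
      · intro h; exact absurd (Finset.mem_univ i) h
  refine ⟨t, c, u, hc, ?_, hs⟩
  exact hMODW M S P φ X (Fin t) c u x B hS hX hc hne hu
    (by filter_upwards [hs, hxB] with j h1 h2 using ⟨h1, h2⟩) hind

end Pool.Agent.Helper93.SUBW
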